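import Mathlib
import Pool.Agent.Lib.MP_37d573_pr.Prob

set_option autoImplicit false

namespace Pool.Agent.Results.MP_37d573_pr.EveryVersionDiscontinuous

open MeasureTheory Filter Topology ProbabilityTheory
open scoped ENNReal
open Pool.Agent.Lib.MP_37d573_pr

/-- The series is almost surely `1` plus the tail beyond the first term. -/
lemma series_eq {Ω : Type*} [MeasurableSpace Ω] {P : Measure Ω} [IsProbabilityMeasure P]
    {I : ℕ+ → Ω → ℝ} (hmeas : ∀ n, Measurable (I n)) (hval : ∀ n ω, I n ω = 0 ∨ I n ω = 1)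
    (hprob : ∀ n : ℕ+, P {ω | I n ω = 1} = ENNReal.ofReal (1 / n)) :
    (∀ᵐ ω ∂P, Z I 1 ω < ∞) ∧
    (fun ω => ∑' n : ℕ+, I n ω / n) =ᵐ[P] (fun ω => 1 + (Z I 1 ω).toReal) := by
  have hfin : ∀ᵐ ω ∂P, Z I 1 ω < ∞ := by
    refine ae_lt_top (measurable_Z hmeas 1) ?_
    exact ne_top_of_le_ne_top ENNReal.ofReal_ne_top (lintegral_Z hmeas hval hprob 1 le_rfl)
  have hone : ∀ᵐ ω ∂P, I 1 ω = 1 := by
    have hB : MeasurableSet {ω | I 1 ω = 1} := (hmeas 1) (measurableSet_singleton 1)
    have h1 : P {ω | I 1 ω = 1} = 1 := by rw [hprob]; simp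
    rw [ae_iff]
    exact (prob_compl_eq_zero_iff hB).2 h1
  refine ⟨hfin, ?_⟩
  filter_upwards [hfin, hone] with ω h1 h2
  have hnn : ∀ n, 0 ≤ I n ω := by
    intro n
    rcases hval n ω with h | h <;> rw [h] <;> norm_num
  have hterm : ∀ k : ℕ, (ENNReal.ofReal (I (1 + k).succPNat ω / ((1 + k : ℕ) + 1))).toReal =
      I (k + 1).succPNat ω / ((k + 1 : ℕ) + 1) := by
    intro k
    rw [ENNReal.toReal_ofReal (div_nonneg (hnn _) (by positivity)), add_comm 1 k]
  have hsum : Summable fun k : ℕ => I (k + 1).succPNat ω / (((k + 1 : ℕ) : ℝ) + 1) := by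
    have := ENNReal.summable_toReal (ne_of_lt h1)
    simpa only [hterm] using this
  have hsum0 : Summable fun k : ℕ => I k.succPNat ω / ((k : ℝ) + 1) := by
    rw [← summable_nat_add_iff 1]
    exact hsum
  have hZ : (Z I 1 ω).toReal = ∑' k : ℕ, I (k + 1).succPNat ω / (((k + 1 : ℕ) : ℝ) + 1) := by
    unfold Z
    rw [ENNReal.tsum_toReal_eq fun k => ENNReal.ofReal_ne_top]
    exact tsum_congr hterm
  have hS : ∑' n : ℕ+, I n ω / (n : ℝ) = ∑' k : ℕ, I k.succPNat ω / ((k : ℝ) + 1) := by
    rw [← Equiv.pnatEquivNat.symm.tsum_eq (fun n : ℕ+ => I n ω / (n : ℝ))]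
    refine tsum_congr fun k => ?_
    show I k.succPNat ω / ((k.succPNat : ℕ) : ℝ) = _
    rw [Nat.succPNat_coe]
    push_cast
    rfl
  rw [hS, hsum0.tsum_eq_zero_add, ← hZ]
  have e : I (0 : ℕ).succPNat ω = 1 := h2
  rw [e]
  simp

/-- **Affirmative answer.** Let `I_1, I_2, ...` be independent `{0,1}`-valued random variables with
`P(I_n = 1) = 1/n` and let `S = ∑ I_n / n`. Then every density of the law of `S` is discontinuous at
some point of `(1, ∞)`. -/
theorem result {Ω : Type*} [MeasurableSpace Ω] (P : Measure Ω) [IsProbabilityMeasure P]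
    (I : ℕ+ → Ω → ℝ) (hmeas : ∀ n, Measurable (I n)) (hindep : iIndepFun I P)
    (hval : ∀ n ω, I n ω = 0 ∨ I n ω = 1)
    (hprob : ∀ n : ℕ+, P {ω | I n ω = 1} = ENNReal.ofReal (1 / n))
    (f : ℝ → ℝ)
    (hf : P.map (fun ω => ∑' n : ℕ+, I n ω / n) =
      volume.withDensity (fun x => ENNReal.ofReal (f x))) :
    ∃ x, 1 < x ∧ ¬ ContinuousAt f x := by
  by_contra hcon
  push Not at hcon
  obtain ⟨hfin, hae⟩ := series_eq hmeas hval hprob
  have hfam := fam_Fd hmeas hindep hval hprob
  rw [Measure.map_congr hae] at hf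
  set S : Ω → ℝ := fun ω => 1 + (Z I 1 ω).toReal with hS
  have hSm : Measurable S := (measurable_Z hmeas 1).ennreal_toReal.const_add 1
  have : IsProbabilityMeasure (P.map S) := Measure.isProbabilityMeasure_map hSm.aemeasurable
  -- the distribution function of the law
  have hcdf : ∀ x, 0 < x → (P.map S).real (Set.Iio (1 + x)) = Fd P I 1 x := by
    intro x hx
    rw [measureReal_def, Measure.map_apply hSm measurableSet_Iio]
    unfold Fd
    rw [measureReal_def]
    congr 1
    refine measure_congr ?_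
    filter_upwards [hfin] with ω hω
    have h1 := ENNReal.lt_ofReal_iff_toReal_lt (b := x) hω.ne
    apply propext
    show (1 + (Z I 1 ω).toReal < 1 + x) ↔ Z I 1 ω < ENNReal.ofReal x
    rw [h1]
    constructor <;> intro h <;> linarith
  have hg : ∀ y, 1 < y → ContinuousAt (fun y => max (f y) 0) y := fun y hy =>
    (hcon y hy).max continuousAt_const
  have hgon : ContinuousOn (fun y => max (f y) 0) (Set.Ioi 1) := fun y hy =>
    (hg y hy).continuousWithinAt
  have hint : ∀ a b, 0 < a → a ≤ b → Fd P I 1 b - Fd P I 1 a =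
      ∫ y in (1 + a)..(1 + b), max (f y) 0 := by
    intro a b ha hab
    have hsub : Set.Icc (1 + a) (1 + b) ⊆ Set.Ioi 1 := fun y hy => by
      have := hy.1
      rw [Set.mem_Ioi]; linarith
    rw [← hcdf a ha, ← hcdf b (by linarith)]
    have hun : Set.Iio (1 + b) = Set.Iio (1 + a) ∪ Set.Ico (1 + a) (1 + b) :=
      (Set.Iio_union_Ico_eq_Iio (by linarith)).symm
    have hdisj : Disjoint (Set.Iio (1 + a)) (Set.Ico (1 + a) (1 + b)) := by
      rw [Set.disjoint_left]
      intro y hy1 hy2
      exact absurd hy1 (not_lt.2 hy2.1)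
    rw [hun, measureReal_union hdisj measurableSet_Ico, add_sub_cancel_left, measureReal_def, hf,
      withDensity_apply _ measurableSet_Ico, intervalIntegral.integral_of_le (by linarith),
      ← integral_Ico_eq_integral_Ioc, integral_eq_lintegral_of_nonneg_ae]
    · congr 1
      refine lintegral_congr fun y => ?_
      rcases le_total (f y) 0 with h | h
      · rw [max_eq_right h, ENNReal.ofReal_of_nonpos h]; simp
      · rw [max_eq_left h]
    · exact ae_of_all _ fun y => le_max_right _ _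
    · refine (hgon.mono (Set.Ico_subset_Icc_self.trans hsub)).aestronglyMeasurable measurableSet_Ico
  refine core hfam fun x hx => ?_
  -- the derivative
  have hx2 : 0 < x / 2 := by linarith
  have hii : IntervalIntegrable (fun y => max (f y) 0) volume (1 + x / 2) (1 + x) := by
    refine (hgon.mono ?_).intervalIntegrable
    rw [Set.uIcc_of_le (by linarith)]
    intro y hy
    have := hy.1
    rw [Set.mem_Ioi]; linarith
  have hsm : StronglyMeasurableAtFilter (fun y => max (f y) 0) (𝓝 (1 + x)) volume :=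
    hgon.stronglyMeasurableAtFilter isOpen_Ioi (1 + x) (by rw [Set.mem_Ioi]; linarith)
  have h1 := intervalIntegral.integral_hasDerivAt_right hii hsm (hg (1 + x) (by linarith))
  have h2 : HasDerivAt (fun y : ℝ => 1 + y) 1 x := (hasDerivAt_id x).const_add 1
  have h3 := h1.comp x h2
  have h4 : HasDerivAt (fun y => Fd P I 1 (x / 2) + ∫ z in (1 + x / 2)..(1 + y), max (f z) 0)
      (max (f (1 + x)) 0 * 1) x := h3.const_add _
  refine (h4.congr_of_eventuallyEq ?_).differentiableAt
  filter_upwards [Ioi_mem_nhds (show x / 2 < x by linarith)] with y hy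
  rw [Set.mem_Ioi] at hy
  rw [← hint (x / 2) y hx2 hy.le]
  ring

end Pool.Agent.Results.MP_37d573_pr.EveryVersionDiscontinuous
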